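import Mathlib
import Pool.Agent.N171.BkPub
import Pool.Agent.TH132.A.Hodge

/-!
# Varieties with a Galois action, hyperelliptic systems and good tuples of polynomials: definitions
-/

set_option autoImplicit false

open CategoryTheory AlgebraicGeometry Polynomial Filter Topology
open scoped Classical

universe u

namespace Pool.Agent.V7H41.HD

open Pool.Agent.TH125.Gal Pool.Agent.H914 Pool.Agent.H914.VarClass
  Pool.Agent.H914.VarClass.Obj Pool.Agent.H914.WeilCohomology Pool.Agent.H281R3.HT
open Pool.Agent.N171.Bkp (Branch Crd Large)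

noncomputable section

/-! ### Spaces with an action of a Galois group -/

section act

variable {L F : Type} [Field L] [Field F] [Algebra L F] {C A : Type} [Field C]

/-- The inclusion of the 2-adic integers in a field which contains the 2-adic numbers. -/
def inc (C : Type) [Field C] [Algebra ℚ_[2] C] (z : ℤ_[2]) : C :=
  algebraMap ℚ_[2] C (algebraMap ℤ_[2] ℚ_[2] z)

variable (L F) in
/-- The inverse of the 2-adic cyclotomic character, with values in a field `C` which contains the
2-adic numbers. -/
def cyc (C : Type) [Field C] [Algebra ℚ_[2] C] (s : F ≃ₐ[L] F) : C :=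
  inc C ((cyclotomicCharacter F 2 (MulSemiringAction.toRingAut (F ≃ₐ[L] F) F s))⁻¹ : ℤ_[2]ˣ)

/-- The formal properties of a Galois action on a cohomology algebra `A` with the grading `gr`, the
trace map `tr` in degree `2 n` and the sets `Z j` of the classes of cycles of codimension `j`, `χ` being
the inverse of the cyclotomic character: it is an action by automorphisms of the algebra, compatible
with the grading and, up to Tate twists, with the trace map and with the classes of cycles; for each
`c` in `Z j` a subgroup of finite index acts on `c` by the power `χ ^ j`. -/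
structure GalAct [Ring A] [Algebra C A] (χ : (F ≃ₐ[L] F) → C) (gr : ℕ → Submodule C A) (n : ℕ)
    (tr : A →ₗ[C] C) (Z : ℕ → Set A) (ρ : (F ≃ₐ[L] F) → A → A) : Prop where
  one : ∀ x, ρ 1 x = x
  comp : ∀ s t x, ρ (s * t) x = ρ s (ρ t x)
  add : ∀ s x y, ρ s (x + y) = ρ s x + ρ s y
  mul : ∀ s x y, ρ s (x * y) = ρ s x * ρ s y
  const : ∀ s (c : C), ρ s (algebraMap C A c) = algebraMap C A c
  grading : ∀ s i, ∀ x ∈ gr i, ρ s x ∈ gr i
  trace : ∀ s x, tr (ρ s x) = χ s ^ n * tr x
  cycle : ∀ s j, ∀ c ∈ Z j, ∃ c' ∈ Z j, ρ s c = χ s ^ j • c'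
  finite : ∀ j, ∀ c ∈ Z j, ∃ H : Subgroup (F ≃ₐ[L] F), H.FiniteIndex ∧
    ∀ s ∈ H, ρ s c = χ s ^ j • c

/-- The elements of the 2-adic Tate module of `M`: the compatible sequences of elements of order
a power of two. -/
def TateSeq (M : Type) [CommGroup M] : Set (ℕ → M) := {x | x 0 = 1 ∧ ∀ n, x (n + 1) ^ 2 = x n}

/-- The nonzero subspace `T` of `B` is a Tate twist of the 2-adic Tate module of the group `M`: it is
spanned by the image of a map `ε` on the Tate module which is additive, linear over the 2-adic
integers and compatible with the actions of the Galois group, up to a power of the inverse `χ` of the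
cyclotomic character (`S s φ` says that the map `φ` on `M` is the action of `s`). -/
def IsTwist [Algebra ℚ_[2] C] [Ring A] [Algebra C A] (χ : (F ≃ₐ[L] F) → C) {M : Type}
    [CommGroup M] (S : (F ≃ₐ[L] F) → (M → M) → Prop) (ρ : (F ≃ₐ[L] F) → A → A)
    (T B : Submodule C A) : Prop :=
  T ≠ ⊥ ∧ T ≤ B ∧ ∃ (ε : (ℕ → M) → A) (c : ℕ), Submodule.span C (ε '' TateSeq M) = T ∧
    ∀ x ∈ TateSeq M, (∀ y ∈ TateSeq M, ε (x * y) = ε x + ε y) ∧
      (∀ r : ℤ_[2], ε (fun n => x n ^ r.appr n) = inc C r • ε x) ∧
      ∀ s φ, S s φ → ρ s (ε x) = χ s ^ c • ε (fun n => φ (x n))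

/-- The map `φ` on the class group of the ring `R` is induced by the automorphism `T` of `R`. -/
def Induces {R : Type} [CommRing R] [IsDomain R] (T : R → R) (φ : ClassGroup R → ClassGroup R) :
    Prop :=
  ∃ h : R ≃+* R, (∀ r, h r = T r) ∧ ∀ x, φ x = ClassGroup.mulEquiv h x

/-- The action of `s` on the coefficients of the elements of the ring `F[x, y]`, `y ^ 2 = f (x)`. -/
def coefAct (f : L[X]) (s : F ≃ₐ[L] F) (r : Crd F f) : Crd F f :=
  ⟨r.re.map (s : F →+* F), r.im.map (s : F →+* F)⟩

variable [Algebra ℚ_[2] C]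

/-- The basis `e` spans a lattice over the 2-adic integers which is stable under the map `T`, and `T` is
trivial on the lattice modulo `2 ^ n`. -/
def Pres [AddCommGroup A] [Module C A] {d : ℕ} (e : Module.Basis (Fin d) C A) (T : A → A) (n : ℕ) :
    Prop :=
  ∀ i j, ∃ z : ℤ_[2], e.repr (T (e i)) j = inc C ((if i = j then 1 else 0) + 2 ^ n * z)

variable (C) [Ring A] [Algebra C A] (ρ : (F ≃ₐ[L] F) → A → A)

/-- The space has a lattice over the 2-adic integers which is stable under the group. -/
def HasLattice : Prop :=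
  ∃ (d : ℕ) (e : Module.Basis (Fin d) C A), ∀ s, Pres e (ρ s) 0

/-- The space has a stable lattice of rank `d` over the 2-adic integers, and for all `i` some
automorphism acts trivially on the lattice modulo 2 and moves a root of `f i`, or
`(deg f i)! > 2 ^ (d ^ 2 + 1)`. -/
def Free {ι : Type} (f : ι → L[X]) : Prop :=
  ∃ (d : ℕ) (e : Module.Basis (Fin d) C A), (∀ s, Pres e (ρ s) 0) ∧
    ∀ i, 2 ^ (d ^ 2 + 1) < (f i).natDegree.factorial ∨
      ∃ s : F ≃ₐ[L] F, Pres e (ρ s) 1 ∧ ∃ x ∈ (f i).rootSet F, s x ≠ x

variable {k : Type} [Field k] [Algebra k F]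

/-- The conditions on a lattice which do not depend on the polynomials: `(n i)! > 2 ^ (d ^ 2 + 1)`
with `d` the rank, or the image of the Galois group modulo 2 is solvable, or the elements of `k`
which become squares in the extension defined by the action on the lattice modulo 2 are in `U`, up to
squares. -/
def Tame {ι : Type} (n : ι → ℕ) (U : Finset kˣ) : Prop :=
  ∃ (d : ℕ) (e : Module.Basis (Fin d) C A), (∀ s, Pres e (ρ s) 0) ∧
    ((∀ i, 2 ^ (d ^ 2 + 1) < (n i).factorial) ∨
      (∃ m : ℕ, ∀ s ∈ derivedSeries (F ≃ₐ[L] F) m, Pres e (ρ s) 1) ∨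
      ∀ c : kˣ, (∀ δ : F, δ ^ 2 = algebraMap k F c → ∀ s, Pres e (ρ s) 1 → s δ = δ) →
        ∃ u ∈ U, IsSquare (c * u))

end act

/-- The separable elements of `L` have solvable Galois groups over `k`, or lie in a normal extension
over which none of the polynomials `f i` splits, or in which the only elements of `k` which become
squares are those of `U`, up to squares. -/
def Allowed {k : Type} (L F : Type) [Field k] [Field L] [Field F] [Algebra k L] [Algebra L F]
    [Algebra k F] {ι : Type} (U : Finset kˣ) (f : ι → k[X]) : Prop :=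
  (∀ x : L, IsSeparable k x → Group.IsSolvable (minpoly k x).Gal) ∨
  ∃ M : IntermediateField k F, Normal k M ∧ (∀ x : L, IsSeparable k x → algebraMap L F x ∈ M) ∧
    ((∀ i, ¬ ((f i).map (algebraMap k M)).Splits) ∨
      ∀ c : kˣ, (∃ δ ∈ M, δ ^ 2 = algebraMap k F c) → ∃ u ∈ U, IsSquare (c * u))

/-! ### Varieties with an action of a Galois group on the cohomology -/

section weil

variable {κ : Type u} [Field κ] {𝒱 : VarClass κ} {ops : CycleOps 𝒱}
  (W : WeilCohomology.{u, 0} ops)

/-- A variety with a map `Γ × H (X) → H (X)` (which will be an action of the group `Γ`). -/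
structure GV (Γ : Type) where
  /-- the variety -/
  X : 𝒱.Obj
  /-- the action -/
  act : Γ → W.H X → W.H X

/-- The pull-back. -/
def pull {X Y : 𝒱.Obj} (f : X ⟶ Y) (x : W.H Y) : W.H X := W.map f x

variable {W}

/-- `C` is the product of `A` and `B`, and the actions are compatible with the projections. -/
structure IsProd {Γ : Type} (A B : GV W Γ) (a : Γ → W.H (A.X.prod B.X) → W.H (A.X.prod B.X)) :
    Prop where
  left : ∀ s x, a s (pull W (fst A.X B.X) x) = pull W (fst A.X B.X) (A.act s x)
  right : ∀ s x, a s (pull W (snd A.X B.X) x) = pull W (snd A.X B.X) (B.act s x)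

variable [Algebra ℚ_[2] W.K] {L F : Type} [Field L] [Field F] [Algebra L F]

/-- `G` is a class of varieties with an action of the Galois group of `F` over `L` on the cohomology
with the formal properties of a Galois action, closed under products. The variety `Z` and the
odd-dimensional varieties `X i` are members of `G`; the divisors `D i` on `X i` satisfy the hard
Lefschetz theorem and the standard conjectures of Lefschetz and of Hodge type; the transcendental
cohomology of `X i` is not zero, in the middle degree, and a Tate twist of the Tate module of the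
Jacobian of `y ^ 2 = f i (x)`, that is of the class group of `F[x, y]`. (Example: the curves
`y ^ 2 = f i (x)`.) -/
structure System {ι : Type} (f : ι → L[X]) [∀ i, Branch (f i)] (G : Set (GV W (F ≃ₐ[L] F)))
    (X : ι → GV W (F ≃ₐ[L] F)) (D : ∀ i, (X i).X.Cycles) (Z : GV W (F ≃ₐ[L] F)) : Prop where
  galois : ∀ A ∈ G, GalAct (cyc L F W.K) (W.gr A.X) A.X.dim (W.tr A.X) (algClasses W A.X) A.act
  prod : ∀ A ∈ G, ∀ B ∈ G, ∃ a, (⟨A.X.prod B.X, a⟩ : GV W (F ≃ₐ[L] F)) ∈ G ∧ IsProd A B a
  mem : ∀ i, X i ∈ G
  mem_base : Z ∈ G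
  odd : ∀ i, Odd (X i).X.dim
  pol : ∀ i, IsPolarization W (X i).X (D i)
  tate : ∀ i, IsTwist (cyc L F W.K) (fun s => Induces (coefAct (f i) s)) (X i).act
    (transcendental W (X i).X) (W.gr (X i).X (X i).X.dim)

variable (W) in
/-- Hard Lefschetz holds for `T`, and the standard conjecture of Hodge type, the conjecture D
(homological and numerical equivalence coincide) and the conjecture A (of Lefschetz type) hold for
`T` if and only if they hold for `P`. -/
structure Same (P T : Polarized 𝒱) : Prop where
  hard : HardLefschetz W T.X T.D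
  hodge : HodgeType W T.X T.D ↔ HodgeType W P.X P.D
  num : HomEqNum W T.X ↔ HomEqNum W P.X
  lefschetz : LefschetzA W T.X T.D ↔ LefschetzA W P.X P.D

/-- The standard conjectures for the products of `Z` and powers of the `X i` are equivalent to those
for `Z`, for all systems `X`, `D` of varieties whose transcendental cohomology belongs to the
Jacobians of the curves `y ^ 2 = f i (x)`, all divisors `E` on `Z` with the hard Lefschetz theorem and
all products, with the sum of the pull-backs of the divisors. -/
def Reduces {ι : Type} (f : ι → L[X]) (Z : GV W (F ≃ₐ[L] F)) : Prop :=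
  ∃ _ : ∀ i, Branch (f i), ∀ (G : Set (GV W (F ≃ₐ[L] F))) (X : ι → GV W (F ≃ₐ[L] F))
    (D : ∀ i, (X i).X.Cycles), System f G X D Z →
    ∀ E : Z.X.Cycles, Z.X.IsCyc 1 E → HardLefschetz W Z.X E →
    ∀ l : List (ι × ℕ), (l.map Prod.fst).Nodup →
      Same W ⟨Z.X, E⟩ (tower ops (fun i => ⟨(X i).X, D i⟩) ⟨Z.X, E⟩ l)

end weil

/-- The tuple `f` is good for `U`: `Reduces` is true for all the fields `L` which are allowed and all
the varieties `Z` over `L` which are tame. -/
def Good {k : Type} [Field k] {ι : Type} (n : ι → ℕ) (U : Finset kˣ) (f : ι → k[X]) : Prop :=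
  ∀ (L F : Type) [Field L] [Field F] [Algebra k L] [Algebra L F] [Algebra k F]
    [IsScalarTower k L F] [IsAlgClosure L F], Allowed L F U f →
    ∀ (κ : Type u) [Field κ] (𝒱 : VarClass κ) (ops : CycleOps 𝒱) (W : WeilCohomology.{u, 0} ops)
      [Algebra ℚ_[2] W.K] (Z : GV W (F ≃ₐ[L] F)), Tame W.K Z.act n U →
      Reduces (fun i => (f i).map (algebraMap k L)) Z

/-! ### Tuples of polynomials -/

/-- The tuple of the monic polynomials with the coefficients `y`: the polynomial `i` is
`X ^ n i + ∑ j < n i, y (i, j) X ^ j`. -/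
def poly {R : Type} [CommRing R] (k : Type) [Field k] [Algebra R k] {ι : Type}
    {n : ι → ℕ} (y : (Σ i, Fin (n i)) → R) (i : ι) : k[X] :=
  X ^ n i + ∑ j : Fin (n i), C (algebraMap R k (y ⟨i, j⟩)) * X ^ (j : ℕ)

/-- The tuple `y` is in the residue class `z`. -/
def InClass {R σ : Type} [CommRing R] {M : Ideal R} (y : σ → R) (z : σ → R ⧸ M) : Prop :=
  ∀ j, Ideal.Quotient.mk M (y j) = z j

/-- The proportion of the elements of `S` with the property `P`. -/
def prop {α : Type} (S : Finset α) (P : α → Prop) : ℝ := ((S.filter P).card : ℝ) / (S.card : ℝ)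

/-- A sequence of nonempty finite sets of tuples which is equidistributed modulo each ideal with finite
quotient. -/
def Equidistributed {R σ : Type} [CommRing R] [Fintype σ] (B : ℕ → Finset (σ → R)) : Prop :=
  (∀ t, (B t).Nonempty) ∧ ∀ M : Ideal R, Finite (R ⧸ M) → ∀ z : σ → R ⧸ M,
    Tendsto (fun t => prop (B t) fun y => InClass y z) atTop
      (𝓝 (1 / (Nat.card (R ⧸ M) : ℝ) ^ Fintype.card σ))

/-- The proportion of the tuples `y` in `B t` with the property `P t y` tends to one. -/
def AlmostAll {R σ : Type} (B : ℕ → Finset (σ → R)) (P : ℕ → (σ → R) → Prop) : Prop :=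
  Tendsto (fun t => prop (B t) (P t)) atTop (𝓝 1)

end

end Pool.Agent.V7H41.HD
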