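import Mathlib
import Pool.Agent.N171.Bk3

/-!
# Lattices over the 2-adic integers in spaces over a field which contains the 2-adic numbers
-/

open Finset Function Matrix

set_option linter.unusedSectionVars false

namespace Pool.Agent.V7H41.HD

open Pool.Agent.N171
open Pool.Agent.N171.Ht (latK aK)
open Pool.Agent.N171.Htp (PresLat)

section base

variable {C A : Type} [Field C] [Algebra ℚ_[2] C] [AddCommGroup A] [Module C A] {d : ℕ}

/-- The map from the column vectors. -/
noncomputable def phi (e : Module.Basis (Fin d) C A) : (Fin d → ℚ_[2]) →+ A where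
  toFun v := ∑ j, algebraMap ℚ_[2] C (v j) • e j
  map_zero' := by simp
  map_add' v w := by
    simp only [Pi.add_apply, map_add, add_smul, Finset.sum_add_distrib]

theorem phi_apply (e : Module.Basis (Fin d) C A) (v : Fin d → ℚ_[2]) :
    phi e v = ∑ j, algebraMap ℚ_[2] C (v j) • e j := rfl

theorem phi_smul (e : Module.Basis (Fin d) C A) (r : ℚ_[2]) (v : Fin d → ℚ_[2]) :
    phi e (r • v) = algebraMap ℚ_[2] C r • phi e v := by
  rw [phi_apply, phi_apply, Finset.smul_sum]
  refine Finset.sum_congr rfl fun j _ => ?_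
  rw [Pi.smul_apply, smul_eq_mul, map_mul, mul_smul]

theorem phi_single (e : Module.Basis (Fin d) C A) (i : Fin d) :
    phi e (Pi.basisFun ℚ_[2] (Fin d) i) = e i := by
  rw [phi_apply, Finset.sum_eq_single i]
  · rw [Pi.basisFun_apply, Pi.single_eq_same, map_one, one_smul]
  · intro j _ hj
    rw [Pi.basisFun_apply, Pi.single_eq_of_ne hj, map_zero, zero_smul]
  · intro h
    exact absurd (Finset.mem_univ _) h

theorem phi_sum (e : Module.Basis (Fin d) C A) {d' : ℕ}
    (b : Module.Basis (Fin d') ℚ_[2] (Fin d → ℚ_[2])) (v : Fin d → ℚ_[2]) :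
    phi e v = ∑ j, algebraMap ℚ_[2] C (b.repr v j) • phi e (b j) := by
  conv_lhs => rw [← b.sum_repr v, map_sum]
  refine Finset.sum_congr rfl fun j _ => ?_
  rw [phi_smul]

/-- The basis which belongs to a basis of the column vectors. -/
theorem exists_basis (e : Module.Basis (Fin d) C A) {d' : ℕ}
    (b : Module.Basis (Fin d') ℚ_[2] (Fin d → ℚ_[2])) :
    ∃ e' : Module.Basis (Fin d') C A, ∀ i, e' i = phi e (b i) := by
  have hd : d' = d := by
    have h1 := Module.finrank_eq_card_basis b
    rw [Module.finrank_fin_fun, Fintype.card_fin] at h1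
    exact h1.symm
  have hcard : Fintype.card (Fin d') = Module.finrank C A := by
    rw [Module.finrank_eq_card_basis e, Fintype.card_fin, Fintype.card_fin, hd]
  have hspan : ⊤ ≤ Submodule.span C (Set.range fun i => phi e (b i)) := by
    rw [← e.span_eq, Submodule.span_le]
    rintro _ ⟨i, rfl⟩
    rw [← phi_single e i, phi_sum e b]
    exact Submodule.sum_mem _ fun j _ => Submodule.smul_mem _ _ (Submodule.subset_span ⟨j, rfl⟩)
  refine ⟨basisOfTopLeSpanOfCardEqFinrank _ hspan hcard, fun i => ?_⟩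
  rw [coe_basisOfTopLeSpanOfCardEqFinrank]

end base

/-- **The bridge.** -/
theorem bridge {L F C A : Type} [Field L] [Field F] [Algebra L F] [Field C] [Algebra ℚ_[2] C]
    [Ring A] [Algebra C A] (ρ : (F ≃ₐ[L] F) →* (A ≃ₐ[C] A)) {d : ℕ} (e : Module.Basis (Fin d) C A)
    (he : ∀ s, PresLat e (ρ s) 0) :
    ∃ τ : Representation ℚ_[2] (F ≃ₐ[L] F) (Fin d → ℚ_[2]),
      (∀ s n, PresLat e (ρ s) n → TrivMod (Pi.basisFun ℚ_[2] (Fin d)) (τ s) n) ∧
      ∀ {d' : ℕ} (b : Module.Basis (Fin d') ℚ_[2] (Fin d → ℚ_[2])),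
        ∃ e' : Module.Basis (Fin d') C A, ∀ s n, TrivMod b (τ s) n → PresLat e' (ρ s) n := by
  obtain ⟨t, ht, -⟩ := latK (C := C) (H := A)
      (A := ⟨⟨fun s => (ρ s).toLinearMap,
        (congrArg AlgEquiv.toLinearMap (map_one ρ)).trans rfl⟩,
        fun s s' => (congrArg AlgEquiv.toLinearMap (map_mul ρ s s')).trans rfl⟩) he
  have ht' : ∀ s i, ρ s (e i) = ∑ j, aK C (t s j i) • e j := ht
  let T : (F ≃ₐ[L] F) →* Matrix (Fin d) (Fin d) ℚ_[2] :=
    ((algebraMap ℤ_[2] ℚ_[2]).mapMatrix : Matrix (Fin d) (Fin d) ℤ_[2] →+*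
      Matrix (Fin d) (Fin d) ℚ_[2]).toMonoidHom.comp t
  have hT : ∀ s i j, T s i j = algebraMap ℤ_[2] ℚ_[2] (t s i j) := fun s i j => rfl
  let τ : Representation ℚ_[2] (F ≃ₐ[L] F) (Fin d → ℚ_[2]) :=
    ((Matrix.toLinAlgEquiv' (R := ℚ_[2]) (n := Fin d)).toAlgHom.toRingHom.toMonoidHom).comp T
  have hτ : ∀ s x, τ s x = T s *ᵥ x := fun s x => rfl
  have hinj : Function.Injective (aK C) :=
    (algebraMap ℚ_[2] C).injective.comp (FaithfulSMul.algebraMap_injective ℤ_[2] ℚ_[2])
  have hrep : ∀ s i j, (Pi.basisFun ℚ_[2] (Fin d)).repr (τ s (Pi.basisFun ℚ_[2] (Fin d) i)) j =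
      algebraMap ℤ_[2] ℚ_[2] (t s j i) := by
    intro s i j
    rw [Pi.basisFun_repr, Pi.basisFun_apply, hτ, Matrix.mulVec_single_one]
    rfl
  have hphi : ∀ s v, phi e (τ s v) = ρ s (phi e v) := by
    intro s v
    rw [phi_apply e v, map_sum]
    have h1 : ∀ j, ρ s (algebraMap ℚ_[2] C (v j) • e j) =
        ∑ i, algebraMap ℚ_[2] C (T s i j * v j) • e i := by
      intro j
      rw [map_smul, ht', Finset.smul_sum]
      refine Finset.sum_congr rfl fun i _ => ?_
      rw [smul_smul, hT, map_mul, mul_comm]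
      rfl
    rw [Finset.sum_congr rfl fun j _ => h1 j, Finset.sum_comm, phi_apply]
    refine Finset.sum_congr rfl fun i _ => ?_
    rw [← Finset.sum_smul, ← map_sum]
    rfl
  refine ⟨τ, fun s n hs i j => ?_, fun {d'} b => ?_⟩
  · obtain ⟨z, hz⟩ := hs i j
    refine ⟨z, ?_⟩
    have h1 : e.repr (ρ s (e i)) j = aK C (t s j i) := by
      rw [ht', map_sum, Finsupp.finsetSum_apply, Finset.sum_eq_single j]
      · rw [map_smul, Finsupp.smul_apply, Module.Basis.repr_self, Finsupp.single_eq_same,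
          smul_eq_mul, mul_one]
      · intro k _ hk
        rw [map_smul, Finsupp.smul_apply, Module.Basis.repr_self, Finsupp.single_eq_of_ne hk.symm,
          smul_zero]
      · intro h
        exact absurd (Finset.mem_univ _) h
    have h2 : t s j i = (if i = j then 1 else 0) + 2 ^ n * z := by
      apply hinj
      rw [← h1]
      exact hz
    rw [hrep, h2, map_add, map_mul, map_pow, map_ofNat]
    congr 1
    split_ifs
    · exact map_one _
    · exact map_zero _
  · obtain ⟨e', he'⟩ := exists_basis e b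
    refine ⟨e', fun s n hs i j => ?_⟩
    obtain ⟨z, hz⟩ := hs i j
    refine ⟨z, ?_⟩
    have h1 : e'.repr (ρ s (e' i)) j = algebraMap ℚ_[2] C (b.repr (τ s (b i)) j) := by
      rw [he' i, ← hphi, phi_sum e b, map_sum, Finsupp.finsetSum_apply, Finset.sum_eq_single j]
      · rw [map_smul, Finsupp.smul_apply, ← he', Module.Basis.repr_self, Finsupp.single_eq_same,
          smul_eq_mul, mul_one]
      · intro k _ hk
        rw [map_smul, Finsupp.smul_apply, ← he', Module.Basis.repr_self,
          Finsupp.single_eq_of_ne hk.symm, smul_zero]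
      · intro h
        exact absurd (Finset.mem_univ _) h
    rw [h1, hz]
    change _ = algebraMap ℚ_[2] C (algebraMap ℤ_[2] ℚ_[2] ((if i = j then 1 else 0) + 2 ^ n * z))
    congr 1
    rw [map_add, map_mul, map_pow, map_ofNat]
    congr 1
    split_ifs
    · exact (map_one _).symm
    · exact (map_zero _).symm

end Pool.Agent.V7H41.HD
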