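import Mathlib
import Pool.Agent.N171.Bq2
import Pool.Agent.TH132.A.Hodge

/-!
# The conjecture of Hodge type for towers: equivalence with the conjecture for the base
-/

open CategoryTheory AlgebraicGeometry Finset Function

set_option linter.unusedSectionVars false

universe u

namespace Pool.Agent.V7H41.HD

open Pool.Agent.TH125.Gal Pool.Agent.TH118.SG Pool.Agent.V11219.IsoF Pool.Agent.V11219.Loc
  Pool.Agent.V11219.Quad Pool.Agent.N171.Ht

open Pool.Agent.H914 Pool.Agent.H914.VarClass Pool.Agent.H914.VarClass.Obj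
  Pool.Agent.H914.WeilCohomology Pool.Agent.H281R3.HT Pool.Agent.W552 Pool.Agent.H447

variable {k : Type u} [Field k] {𝒱 : VarClass k} {ops : CycleOps 𝒱}
  {W : WeilCohomology.{u, 0} ops} {Γ : Type} [Group Γ] {χ : Γ →* W.Kˣ} {G : Set (GVar W Γ)}

theorem hodge_of_zero {X : 𝒱.Obj} (h : (1 : W.H X) = 0) (D : X.Cycles) : HodgeType W X D := by
  intro j _ z _ _ hz0
  exact absurd (by rw [← one_mul (W.cl _ z), h, zero_mul]) hz0

/-- **The conjecture of Hodge type for products with powers.** Nothing is assumed on the second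
factor besides the hard Lefschetz theorem. -/
theorem split_hodge_iff {A B : GVar W Γ} {D : A.X.Cycles} (h : SplitData A D B) (n : ℕ)
    {E : B.X.Cycles} (hE : B.X.IsCyc 1 E) (hHL : HardLefschetz W B.X E) :
    HodgeType W ((nest ops n fun _ => (⟨A.X, D⟩ : Polarized 𝒱)).prod ops ⟨B.X, E⟩).X
      ((nest ops n fun _ => (⟨A.X, D⟩ : Polarized 𝒱)).prod ops ⟨B.X, E⟩).D ↔
      HodgeType W B.X E := by
  by_cases hB1 : (1 : W.H B.X) = 0
  · refine iff_of_true (hodge_of_zero ?_ _) (hodge_of_zero hB1 _)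
    have h1 : (1 : W.H ((nest ops n fun _ => (⟨A.X, D⟩ : Polarized 𝒱)).X.prod B.X)) = 0 := by
      rw [← map_one (W.map (snd _ B.X)), hB1, map_zero]
    exact h1
  · obtain ⟨g, F⟩ := h.fp_nest hB1 n
    obtain ⟨hP, hPL⟩ := h.nest_hard n
    obtain ⟨s⟩ := exists_SB h.homEqNum
    obtain ⟨f₁, F₁, hf⟩ := TH132.A.exists_lw hP hPL
    obtain ⟨g₁, F₂, hg⟩ := TH132.A.exists_lw hE hHL
    have hst : TH132.A.Stable W (nest ops n fun _ => (⟨A.X, D⟩ : Polarized 𝒱)).X f₁ :=
      TH132.A.stable_of_lefschetzA F₁.hD F₁.sl2 (lefschetzA_of_D F₁.hD hPL F.hodge.2)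
    refine ⟨fun h3 => TH132.A.hodge_of_prod F₁ F₂ F.hodge.1 (h.nest_one_ne n) h3, fun h3 =>
      TH132.A.hodge_prod_of (fun z hz => TH132.A.mem_tens F.hodge.2 hz ?_) F₁ hf hPL hst
        F.hodge.1 F₂ hg h3⟩
    exact lspan_le (tgt_lspan h.homEqNum h.middle (h.tgt s n _ hz))

variable {ι : Type} {X : ι → GVar W Γ} {D : ∀ i, (X i).X.Cycles} {Z : GVar W Γ}
  [Fintype ι] [DecidableEq ι]

/-- **The conjecture of Hodge type for towers.** -/
theorem kSys_hodge_iff (h : KSys χ G X D Z) {E : Z.X.Cycles}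
    (hE : Z.X.IsCyc 1 E) (hHL : HardLefschetz W Z.X E) (L : List (ι × ℕ))
    (hL : (L.map Prod.fst).Nodup) :
    HodgeType W (nodalTower X D Z E L).X (nodalTower X D Z E L).D ↔ HodgeType W Z.X E := by
  rw [nodalTower, tower_eq]
  induction L with
  | nil => exact Iff.rfl
  | cons a L ih =>
    rw [List.map_cons, List.nodup_cons] at hL
    obtain ⟨υ, hυ, hK⟩ := h.tower E L
    have hN := h.split a.1 hυ (hK a.1 hL.1)
    have h1 := h.hard hE hHL L hL.2
    rw [← ih hL.2]
    exact split_hodge_iff hN a.2 h1.1 h1.2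

/-- Hard Lefschetz for towers. -/
theorem kSys_hard (h : KSys χ G X D Z) {E : Z.X.Cycles}
    (hE : Z.X.IsCyc 1 E) (hHL : HardLefschetz W Z.X E) (L : List (ι × ℕ))
    (hL : (L.map Prod.fst).Nodup) :
    (nodalTower X D Z E L).X.IsCyc 1 (nodalTower X D Z E L).D ∧
      HardLefschetz W (nodalTower X D Z E L).X (nodalTower X D Z E L).D := by
  rw [nodalTower, tower_eq]
  exact h.hard hE hHL L hL

end Pool.Agent.V7H41.HD
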