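import Pool.Agent.N197.AP.L_LIM
import Pool.Agent.V7H41.HD.Bridge
import Pool.Agent.V7H41.HD.Hodge

/-!
# Almost all tuples of polynomials over a finitely generated ring have large Galois groups
-/

set_option autoImplicit false

open Polynomial Filter Topology
open Pool.Agent.N171 Pool.Agent.N197.Htj
open Pool.Agent.X243.Gen (tendsto_of_dens)
open scoped Classical

namespace Pool.Agent.V7H41.HD

section lim

variable (R k : Type) [CommRing R] [IsDomain R] [IsIntegrallyClosed R] [Algebra.FiniteType ℤ R]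
  [Field k] [Algebra R k] [IsFractionRing R k] {ι : Type} [Fintype ι] [Nonempty ι] (n : ι → ℕ)

/-- One exceptional set (as in `Pool.Agent.N197.AP.lim_gd`). -/
theorem lim_gd (hR : ¬ IsField R) (h2 : (2 : R) ≠ 0) (h7 : ∀ i, 7 ≤ n i) (ho : ∀ i, Odd (n i))
    (B : ℕ → Finset ((Σ i, Fin (n i)) → R)) (hB : ∀ i, (B i).Nonempty)
    (heq : ∀ M : Ideal R, Finite (R ⧸ M) → ∀ x : (Σ i, Fin (n i)) → R ⧸ M,
      Tendsto (fun i => (((B i).filter (fun y => ∀ j, Ideal.Quotient.mk M (y j) = x j)).card : ℝ) /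
        ((B i).card : ℝ)) atTop
        (𝓝 (1 / (Nat.card (R ⧸ M) : ℝ) ^ (Fintype.card (Σ i, Fin (n i)))))) :
    ∃ V : ℕ → Finset kˣ, (∀ u : kˣ, ∀ᶠ i in atTop, u ∈ V i) ∧
      Tendsto (fun i => (((B i).filter (fun y => N197.AP.LIM.Gd n (V i) (poly k y))).card : ℝ) /
        ((B i).card : ℝ)) atTop (𝓝 1) := by
  haveI := countable_units R k
  obtain ⟨g, hg⟩ : ∃ g : ℕ → kˣ, Function.Surjective g := exists_surjective_nat _
  have hlim : ∀ j : ℕ, Tendsto (fun i => (((B i).filter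
      (fun y => N197.AP.LIM.Gd n ((Finset.range j).image g) (poly k y))).card : ℝ) /
        ((B i).card : ℝ))
      atTop (𝓝 1) := fun j =>
    tendsto_of_dens {y | N197.AP.LIM.Gd n ((Finset.range j).image g) (poly k y)} (fun η hη =>
      N197.AP.LIM.dens_gd R k n hR h2 h7 ho ((Finset.range j).image g) η hη) B hB heq
  obtain ⟨J, hJ, hJ'⟩ := diag hlim (fun j i => by
    have h1 : (0 : ℝ) < ((B i).card : ℝ) := by exact_mod_cast (hB i).card_pos
    rw [div_le_one h1]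
    exact_mod_cast Finset.card_filter_le _ _)
  refine ⟨fun i => (Finset.range (J i)).image g, fun u => ?_, hJ'⟩
  obtain ⟨m, rfl⟩ := hg u
  filter_upwards [hJ.eventually_gt_atTop m] with i hi
  exact Finset.mem_image_of_mem g (Finset.mem_range.2 hi)

end lim

section gd

open Pool.Agent.N171.Htp (PresLat)

variable {L F C A ι : Type} [Field L] [Field F] [Algebra L F] [Field C] [Algebra ℚ_[2] C]
    [Ring A] [Algebra C A]

/-- From the Galois data to the hypotheses on the tower. -/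
theorem large_of_gd {f : ι → L[X]} {W : Type} [AddCommGroup W] [Module ℚ_[2] W]
    {τ : Representation ℚ_[2] (F ≃ₐ[L] F) W} (h : N197.AP.GD f τ) : Bkp.Large F f :=
  ⟨fun i π hπ => h.2.1 i π (by convert! hπ), h.2.2.1⟩

theorem free_of_gd {f : ι → L[X]} (ρ : (F ≃ₐ[L] F) →* (A ≃ₐ[C] A)) {d : ℕ}
    {τ : Representation ℚ_[2] (F ≃ₐ[L] F) (Fin d → ℚ_[2])}
    (hτ : ∀ {d' : ℕ} (b : Module.Basis (Fin d') ℚ_[2] (Fin d → ℚ_[2])),
        ∃ e' : Module.Basis (Fin d') C A, ∀ s n, TrivMod b (τ s) n → PresLat e' (ρ s) n)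
    (h : N197.AP.GD f τ) : Bkp.FreeOf ρ f := by
  obtain ⟨-, -, -, d', b, hb, h1⟩ := h
  obtain ⟨e', he'⟩ := hτ b
  refine ⟨d', e', fun s => he' s 0 (hb s), fun i => ?_⟩
  rcases h1 i with h2 | ⟨s, hs, x, hx, hsx⟩
  · exact Or.inl h2
  · exact Or.inr ⟨s, he' s 1 hs, x, hx, hsx⟩

end gd

end Pool.Agent.V7H41.HD
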