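import Mathlib
import Pool.Agent.V7H41.HD.Defs
import Pool.Agent.V7H41.HD.Lim

/-!
# The theorem on products with powers of hyperelliptic curves: proofs
-/

set_option autoImplicit false

open CategoryTheory AlgebraicGeometry Polynomial Filter Topology
open scoped Classical

universe u

namespace Pool.Agent.V7H41.HD

open Pool.Agent.TH125.Gal Pool.Agent.H914 Pool.Agent.H914.VarClass
  Pool.Agent.H914.VarClass.Obj Pool.Agent.H914.WeilCohomology Pool.Agent.H281R3.HT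
open Pool.Agent.N171.Bkp (Branch Crd Large FreeOf TateSystem kSys_large)
open Pool.Agent.N171.Htp (PresLat)

section weil

variable {κ : Type u} [Field κ] {𝒱 : VarClass κ} {ops : CycleOps 𝒱}
  {W : WeilCohomology.{u, 0} ops} [Algebra ℚ_[2] W.K] {L F : Type} [Field L] [Field F]
  [Algebra L F]

/-- The action as a homomorphism. -/
noncomputable def toHom {C A : Type} [Field C] [Ring A] [Algebra C A] {χ : (F ≃ₐ[L] F) → C}
    {gr : ℕ → Submodule C A} {n : ℕ} {tr : A →ₗ[C] C} {Z : ℕ → Set A} {ρ : (F ≃ₐ[L] F) → A → A}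
    (h : GalAct χ gr n tr Z ρ) : (F ≃ₐ[L] F) →* (A ≃ₐ[C] A) where
  toFun s :=
    { toFun := ρ s
      invFun := ρ s⁻¹
      left_inv := fun x => by rw [← h.comp, inv_mul_cancel, h.one]
      right_inv := fun x => by rw [← h.comp, mul_inv_cancel, h.one]
      map_mul' := h.mul s
      map_add' := h.add s
      commutes' := h.const s }
  map_one' := AlgEquiv.ext h.one
  map_mul' s t := AlgEquiv.ext (h.comp s t)

/-- to the starting library -/
noncomputable def toV (A : GV W (F ≃ₐ[L] F))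
    (h : GalAct (cyc L F W.K) (W.gr A.X) A.X.dim (W.tr A.X) (algClasses W A.X) A.act) :
    GVar W (F ≃ₐ[L] F) := ⟨A.X, toHom h⟩

/-- from the starting library -/
noncomputable def ofV (A : GVar W (F ≃ₐ[L] F)) : GV W (F ≃ₐ[L] F) := ⟨A.X, fun s x => A.act s x⟩

theorem tateSystem {ι : Type} {f : ι → L[X]} [∀ i, Branch (f i)] {G : Set (GV W (F ≃ₐ[L] F))}
    {X : ι → GV W (F ≃ₐ[L] F)} {D : ∀ i, (X i).X.Cycles} {Z : GV W (F ≃ₐ[L] F)}
    (h : System f G X D Z) :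
    TateSystem f {A | ofV A ∈ G} (fun i => toV (X i) (h.galois _ (h.mem i))) D
      (toV Z (h.galois _ h.mem_base)) where
  galois :=
    { galois := fun A hA =>
        { gr_mem := (h.galois _ hA).grading
          tr_act := (h.galois _ hA).trace
          cl_act := (h.galois _ hA).cycle
          cl_fix := (h.galois _ hA).finite }
      prod := fun A hA B hB => by
        obtain ⟨a, h1, h2⟩ := h.prod _ hA _ hB
        exact ⟨toV ⟨A.X.prod B.X, a⟩ (h.galois _ h1), h1, IsProdVar.mk _ h2.left h2.right⟩ }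
  mem := h.mem
  mem_base := h.mem_base
  odd := h.odd
  pol := h.pol
  tate := h.tate

theorem reduces_of_large [IsAlgClosure L F] {ι : Type} [Finite ι] (f : ι → L[X])
    (hb : ∀ i, Branch (f i)) (hs : Large F f) (Z : GV W (F ≃ₐ[L] F))
    (hZ : ∀ h : GalAct (cyc L F W.K) (W.gr Z.X) Z.X.dim (W.tr Z.X) (algClasses W Z.X) Z.act,
      FreeOf (toHom h) f) :
    Reduces f Z := by
  have hF : IsAlgClosed F := IsAlgClosure.isAlgClosed L
  have := Fintype.ofFinite ι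
  refine ⟨hb, fun G X D h E hE hHL l hl => ?_⟩
  have hK := kSys_large hs (tateSystem h) (hZ (h.galois _ h.mem_base))
  exact ⟨(kSys_hard hK hE hHL l hl).2, kSys_hodge_iff hK hE hHL l hl, hK.homEqNum E l hl,
    hK.lefschetzA hE hHL l hl⟩

theorem reduces_of_free [IsAlgClosure L F] {ι : Type} [Finite ι] (f : ι → L[X])
    (hb : ∀ i, Branch (f i)) (hs : Large F f) (Z : GV W (F ≃ₐ[L] F)) (hZ : Free W.K Z.act f) :
    Reduces f Z :=
  reduces_of_large f hb hs Z fun _ => hZ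

end weil

section gd

variable {κ : Type u} [Field κ] {𝒱 : VarClass κ} {ops : CycleOps 𝒱}
  {W : WeilCohomology.{u, 0} ops} [Algebra ℚ_[2] W.K] {L F : Type} [Field L] [Field F]
  [Algebra L F]

theorem reduces_of_not {ι : Type} (f : ι → L[X]) (hb : ∀ i, Branch (f i))
    (Z : GV W (F ≃ₐ[L] F))
    (hG : ¬ GalAct (cyc L F W.K) (W.gr Z.X) Z.X.dim (W.tr Z.X) (algClasses W Z.X) Z.act) :
    Reduces f Z :=
  ⟨hb, fun _ _ _ h => absurd (h.galois _ h.mem_base) hG⟩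

theorem branch_of_gd {ι : Type} (f : ι → L[X]) (hb : ∀ i, Pool.Agent.N171.HypP (f i))
    {d : ℕ} {τ : Representation ℚ_[2] (F ≃ₐ[L] F) (Fin d → ℚ_[2])}
    (h : Pool.Agent.N197.AP.GD f τ) (i : ι) : Branch (f i) :=
  ⟨(hb i).monic, (hb i).sep, (hb i).odd, h.1 i, (hb i).two⟩

theorem reduces_of_gd [IsAlgClosure L F] {ι : Type} [Finite ι] (f : ι → L[X])
    (hb : ∀ i, Pool.Agent.N171.HypP (f i)) (Z : GV W (F ≃ₐ[L] F))
    (hG : GalAct (cyc L F W.K) (W.gr Z.X) Z.X.dim (W.tr Z.X) (algClasses W Z.X) Z.act)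
    {d : ℕ} {τ : Representation ℚ_[2] (F ≃ₐ[L] F) (Fin d → ℚ_[2])}
    (hτ : ∀ {d' : ℕ} (b : Module.Basis (Fin d') ℚ_[2] (Fin d → ℚ_[2])),
        ∃ e' : Module.Basis (Fin d') W.K (W.H Z.X), ∀ s n,
          Pool.Agent.N171.TrivMod b (τ s) n → PresLat e' (toHom hG s) n)
    (h : Pool.Agent.N197.AP.GD f τ) : Reduces f Z :=
  reduces_of_large f (branch_of_gd f hb h) (large_of_gd h) Z fun _ => free_of_gd (toHom hG) hτ h

end gd

theorem good_of_gd {k : Type} [Field k] {ι : Type} [Finite ι] (n : ι → ℕ) (U : Finset kˣ)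
    (f : ι → k[X]) (h : Pool.Agent.N197.AP.LIM.Gd n U f) : Good.{u} n U f := by
  intro L F _ _ _ _ _ _ _ hA κ _ 𝒱 ops W _ Z hZ
  by_cases hG : GalAct (cyc L F W.K) (W.gr Z.X) Z.X.dim (W.tr Z.X) (algClasses W Z.X) Z.act
  · obtain ⟨d, e, he, hl⟩ := hZ
    obtain ⟨τ, h1, h2⟩ := bridge (toHom hG) e he
    have hT : Pool.Agent.N197.Htj.Tame n U τ := by
      refine ⟨d, Pi.basisFun ℚ_[2] (Fin d), fun s => h1 s 0 (he s), ?_⟩
      rcases hl with hl | ⟨m, hl⟩ | hl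
      · exact Or.inl hl
      · exact Or.inr (Or.inl ⟨m, fun s hs => h1 s 1 (hl s hs)⟩)
      · exact Or.inr (Or.inr fun c hc => hl c fun δ hδ s hs => hc δ hδ s (h1 s 1 hs))
    obtain ⟨h3, h4⟩ := h L F hA (Fin d → ℚ_[2]) τ hT
    exact reduces_of_gd _ h3 Z hG h2 h4
  · obtain ⟨h3, h4⟩ := h L F hA (Fin 0 → ℚ_[2])
      (Representation.trivial ℚ_[2] (F ≃ₐ[L] F) (Fin 0 → ℚ_[2]))
      ⟨0, Pi.basisFun ℚ_[2] (Fin 0), fun s i => i.elim0, Or.inr (Or.inl ⟨0, fun s _ i => i.elim0⟩)⟩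
    exact reduces_of_not _ (branch_of_gd _ h3 h4) Z hG

theorem poly_eq {R : Type} [CommRing R] (k : Type) [Field k] [Algebra R k] {ι : Type}
    {n : ι → ℕ} (y : (Σ i, Fin (n i)) → R) : poly k y = Pool.Agent.N197.Htj.poly k y := rfl

theorem almostAll_mono {R σ : Type} {B : ℕ → Finset (σ → R)} (hB : ∀ t, (B t).Nonempty)
    {P Q : ℕ → (σ → R) → Prop} {dec : ∀ t, DecidablePred (P t)}
    (h : Tendsto (fun t => ((@Finset.filter _ (P t) (dec t) (B t)).card : ℝ) / ((B t).card : ℝ))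
      atTop (𝓝 1)) (hPQ : ∀ t y, P t y → Q t y) : AlmostAll B Q := by
  refine tendsto_of_tendsto_of_tendsto_of_le_of_le h tendsto_const_nhds (fun t => ?_) fun t => ?_
  · have h0 : (0 : ℝ) < ((B t).card : ℝ) := by exact_mod_cast (hB t).card_pos
    apply div_le_div_of_nonneg_right _ h0.le
    refine Nat.cast_le.2 (Finset.card_le_card fun y hy => ?_)
    rw [Finset.mem_filter] at hy ⊢
    exact ⟨hy.1, hPQ t y hy.2⟩
  · have h0 : (0 : ℝ) < ((B t).card : ℝ) := by exact_mod_cast (hB t).card_pos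
    show _ / _ ≤ (1 : ℝ)
    rw [div_le_one h0]
    exact_mod_cast Finset.card_filter_le _ _

section lim

variable (R k : Type) [CommRing R] [IsDomain R] [IsIntegrallyClosed R] [Algebra.FiniteType ℤ R]
  [Field k] [Algebra R k] [IsFractionRing R k] {ι : Type} [Fintype ι] [Nonempty ι] (n : ι → ℕ)

theorem equi {B : ℕ → Finset ((Σ i, Fin (n i)) → R)} (hB : Equidistributed B) (M : Ideal R)
    (hM : Finite (R ⧸ M)) (x : (Σ i, Fin (n i)) → R ⧸ M) :
    Tendsto (fun i => (((B i).filter (fun y => ∀ j, Ideal.Quotient.mk M (y j) = x j)).card : ℝ) /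
        ((B i).card : ℝ)) atTop
        (𝓝 (1 / (Nat.card (R ⧸ M) : ℝ) ^ (Fintype.card (Σ i, Fin (n i))))) := by
  have h1 := hB.2 M hM x
  unfold prop InClass at h1
  convert h1

theorem each (hR : ¬ IsField R) (h2 : (2 : R) ≠ 0) (h7 : ∀ i, 7 ≤ n i) (ho : ∀ i, Odd (n i))
    (B : ℕ → Finset ((Σ i, Fin (n i)) → R)) (hB : Equidistributed B)
    (L F : Type) [Field L] [Field F] [Algebra k L] [Algebra L F] [Algebra k F]
    [IsScalarTower k L F] [IsAlgClosure L F] [FiniteDimensional k (separableClosure k L)]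
    (κ : Type u) [Field κ] (𝒱 : VarClass κ) (ops : CycleOps 𝒱) (W : WeilCohomology.{u, 0} ops)
    [Algebra ℚ_[2] W.K] (Z : GV W (F ≃ₐ[L] F)) (hZ : HasLattice W.K Z.act) :
    AlmostAll B fun _ y => Reduces (fun i => (poly k y i).map (algebraMap k L)) Z := by
  by_cases hG : GalAct (cyc L F W.K) (W.gr Z.X) Z.X.dim (W.tr Z.X) (algClasses W Z.X) Z.act
  · obtain ⟨d, e, he⟩ := hZ
    obtain ⟨τ, h1, h3⟩ := bridge (toHom hG) e he
    have h := Pool.Agent.N197.AP.t_LIM R k ι n hR h2 h7 ho L F (Fin d → ℚ_[2]) τ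
      ⟨d, Pi.basisFun ℚ_[2] (Fin d), fun s => h1 s 0 (he s)⟩ B hB.1 (equi R n hB)
    exact almostAll_mono hB.1 h fun t y hy => reduces_of_gd _ hy.1 Z hG h3 hy.2
  · have h := Pool.Agent.N197.AP.t_LIM R k ι n hR h2 h7 ho L F (Fin 0 → ℚ_[2])
      (Representation.trivial ℚ_[2] (F ≃ₐ[L] F) (Fin 0 → ℚ_[2]))
      ⟨0, Pi.basisFun ℚ_[2] (Fin 0), fun s i => i.elim0⟩ B hB.1 (equi R n hB)
    exact almostAll_mono hB.1 h fun t y hy => reduces_of_not _ (branch_of_gd _ hy.1 hy.2) Z hG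

theorem classes (hR : ¬ IsField R) (h2 : (2 : R) ≠ 0) (h7 : ∀ i, 7 ≤ n i) (ho : ∀ i, Odd (n i))
    (U : Finset kˣ) (η : ℝ) (hη : 0 < η) : ∃ M : Ideal R, Finite (R ⧸ M) ∧
        (1 - η) * (Nat.card ((Σ i, Fin (n i)) → R ⧸ M) : ℝ) ≤
          (Nat.card {z : (Σ i, Fin (n i)) → R ⧸ M //
            ∀ y : (Σ i, Fin (n i)) → R, InClass y z → Good.{u} n U (poly k y)} : ℝ) := by
  obtain ⟨M, hM, h⟩ := Pool.Agent.N197.AP.LIM.dens_gd R k n hR h2 h7 ho U η hη
  refine ⟨M, hM, ?_⟩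
  have := hM
  have := Fintype.ofFinite (R ⧸ M)
  have h1 : Nat.card ((Σ i, Fin (n i)) → R ⧸ M) =
      Nat.card (R ⧸ M) ^ Fintype.card (Σ i, Fin (n i)) := by
    rw [Nat.card_eq_fintype_card, Nat.card_eq_fintype_card, Fintype.card_fun]
  rw [h1, Nat.cast_pow]
  refine h.trans ?_
  rw [← Nat.card_coe_set_eq]
  have h3 : Nat.card {z : (Σ i, Fin (n i)) → R ⧸ M | ∀ y : (Σ i, Fin (n i)) → R,
      (∀ j, Ideal.Quotient.mk M (y j) = z j) →
        Pool.Agent.N197.AP.LIM.Gd n U (Pool.Agent.N197.Htj.poly k y)} ≤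
      Nat.card {z : (Σ i, Fin (n i)) → R ⧸ M |
        ∀ y : (Σ i, Fin (n i)) → R, InClass y z → Good.{u} n U (poly k y)} := by
    refine Nat.card_mono (Set.toFinite _) fun z hz y hy => ?_
    exact good_of_gd n U _ (hz y hy)
  exact_mod_cast h3

theorem uniform (hR : ¬ IsField R) (h2 : (2 : R) ≠ 0) (h7 : ∀ i, 7 ≤ n i) (ho : ∀ i, Odd (n i))
    (B : ℕ → Finset ((Σ i, Fin (n i)) → R)) (hB : Equidistributed B) :
    ∃ V : ℕ → Finset kˣ, (∀ u : kˣ, ∀ᶠ t in atTop, u ∈ V t) ∧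
      AlmostAll B fun t y => Good.{u} n (V t) (poly k y) := by
  obtain ⟨V, hV, h⟩ := lim_gd R k n hR h2 h7 ho B hB.1 (equi R n hB)
  exact ⟨V, hV, almostAll_mono hB.1 h fun t y hy => good_of_gd n _ _ hy⟩

end lim

end Pool.Agent.V7H41.HD
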